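import Pool.Agent.Idem.Mat
import Pool.Agent.Y415.ID.Rate

/-!
# The number of idempotent Boolean matrices, with error terms

The number of idempotent `n × n` Boolean matrices is given by an explicit finite sum up to an
exponentially small relative error, and by an explicit closed form up to a relative error of
order `1 / n`.
-/

set_option autoImplicit false
open Finset Filter

namespace Pool.Agent.Results.MP_c00610_co.ErrorTerms

/-- The number of `n × n` Boolean matrices `A` with `A² = A` for the Boolean (max-min) product. -/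
noncomputable def numIdem (n : ℕ) : ℕ :=
  Nat.card {A : Matrix (Fin n) (Fin n) Bool //
    ∀ i j, (Finset.univ.sup fun k => A i k ⊓ A k j) = A i j}

/-- The sum `∑_{b=0}^{n} C(n,b) 2^{(b+1)(n-b)} (2^b + 2^{n-b})`. -/
noncomputable def mainSum (n : ℕ) : ℝ :=
  ∑ b ∈ Finset.range (n + 1),
    (n.choose b : ℝ) * 2 ^ ((b + 1) * (n - b)) * ((2 : ℝ) ^ b + 2 ^ (n - b))

/-- The closed form `3 θ_n √(2/(π n)) 2^{n²/4 + 2n}`, where `θ_n = ∑_{j ∈ ℤ} 2^{-j²}` for even `n`
and `θ_n = ∑_{j ∈ ℤ} 2^{-(j+1/2)²}` for odd `n`. -/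
noncomputable def closedForm (n : ℕ) : ℝ :=
  3 * (if Even n then ∑' j : ℤ, (2 : ℝ) ^ (-((j : ℝ) ^ 2))
      else ∑' j : ℤ, (2 : ℝ) ^ (-(((j : ℝ) + 1 / 2) ^ 2)))
    * Real.sqrt (2 / (Real.pi * n)) * (2 : ℝ) ^ ((n : ℝ) ^ 2 / 4 + 2 * n)

theorem mainSum_eq (n : ℕ) : mainSum n = IdemCount.f n := by
  rw [IdemCount.Fn.f_eq]
  unfold mainSum
  refine Finset.sum_congr rfl fun b _ => ?_
  rw [show (b + 1) * (n - b) = (n - b) + b * (n - b) by ring, pow_add]
  ring

theorem closed_rate : ∃ C : ℝ, ∀ n : ℕ, 1 ≤ n →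
    |(IdemCount.idn n : ℝ) / IdemCount.Clo.g n - 1| ≤ C / n := by
  have hq1 : (2 : ℝ) ^ (-(1 / 5000) : ℝ) < 1 :=
    Real.rpow_lt_one_of_one_lt_of_neg (by norm_num) (by norm_num)
  obtain ⟨ρ, h1, h2⟩ := exists_between hq1
  have hρ0 : 0 < ρ := lt_trans (by positivity) h1
  obtain ⟨n1, hn1⟩ := eventually_atTop.1 (Pool.Agent.Y415.ID.rel_error ρ h1)
  obtain ⟨n2, hn2⟩ := IdemCount.decay 1 1 ρ hρ0.le h2 1 one_pos
  obtain ⟨C, hC, hfg⟩ := Pool.Agent.Y415.ID.fg_rate
  set D : ℝ := ∑ m ∈ range (n1 + n2), |(IdemCount.idn m : ℝ) / IdemCount.Clo.g m - 1| * m with hD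
  have hD0 : 0 ≤ D := Finset.sum_nonneg fun m _ => by positivity
  refine ⟨C + 1 + D, fun n hn => ?_⟩
  have hnR : (0 : ℝ) < n := by exact_mod_cast (by omega : 0 < n)
  rw [le_div_iff₀ hnR]
  by_cases hlt : n < n1 + n2
  · have h3 : |(IdemCount.idn n : ℝ) / IdemCount.Clo.g n - 1| * n ≤ D :=
      Finset.single_le_sum (f := fun m : ℕ =>
        |(IdemCount.idn m : ℝ) / IdemCount.Clo.g m - 1| * m) (fun i _ => by positivity)
        (Finset.mem_range.2 hlt)
    linarith
  · push Not at hlt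
    have a1 := hn1 n (by omega)
    have a2 := hn2 n (by omega)
    obtain ⟨a3, a4⟩ := hfg n hn
    have hf := IdemCount.f_pos n
    rw [pow_one, one_mul] at a2
    have e1 : (IdemCount.idn n : ℝ) / IdemCount.Clo.g n =
        (IdemCount.idn n : ℝ) / IdemCount.f n * (IdemCount.f n / IdemCount.Clo.g n) := by
      rw [div_mul_div_comm, mul_comm (IdemCount.f n), mul_div_mul_right _ _ hf.ne']
    have hg : 0 ≤ IdemCount.f n / IdemCount.Clo.g n := by
      refine div_nonneg hf.le ?_
      unfold IdemCount.Clo.g IdemCount.Clo.thetaC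
      split_ifs
      · have : 0 ≤ ∑' j : ℤ, (2 : ℝ) ^ (-((j : ℝ) ^ 2)) := tsum_nonneg fun j => by positivity
        positivity
      · have : 0 ≤ ∑' j : ℤ, (2 : ℝ) ^ (-(((j : ℝ) + 1 / 2) ^ 2)) :=
          tsum_nonneg fun j => by positivity
        positivity
    rw [e1]
    generalize (IdemCount.idn n : ℝ) / IdemCount.f n = x at *
    generalize IdemCount.f n / IdemCount.Clo.g n = y at *
    have h5 : |x * y - 1| ≤ ρ ^ n + C / n := by
      have h6 : x * y - 1 = (x - 1) * y + (y - 1) := by ring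
      rw [h6]
      refine (abs_add_le _ _).trans (add_le_add ?_ ?_)
      · rw [abs_mul, abs_of_nonneg hg]
        calc |x - 1| * y ≤ ρ ^ n * 1 := mul_le_mul a1 a4 hg (by positivity)
          _ = ρ ^ n := mul_one _
      · rw [abs_le]
        constructor
        · linarith
        · have : 0 ≤ C / (n : ℝ) := by positivity
          linarith
    calc |x * y - 1| * n ≤ (ρ ^ n + C / n) * n := mul_le_mul_of_nonneg_right h5 hnR.le
      _ = n * ρ ^ n + C := by field_simp
      _ ≤ C + 1 + D := by linarith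

/-- (1) The relative error of the explicit sum is at most `r ^ n` for all large `n`, for every
`r > 2 ^ (-1 / 5000)`. (2) The relative error of the closed form is at most `C / n`. In particular
(3) both quotients tend to `1`. -/
theorem result :
    (∀ r : ℝ, (2 : ℝ) ^ (-(1 / 5000) : ℝ) < r →
      ∀ᶠ n : ℕ in atTop, |(numIdem n : ℝ) / mainSum n - 1| ≤ r ^ n) ∧
    (∃ C : ℝ, ∀ n : ℕ, 1 ≤ n → |(numIdem n : ℝ) / closedForm n - 1| ≤ C / n) ∧
    Tendsto (fun n : ℕ => (numIdem n : ℝ) / mainSum n) atTop (nhds 1) ∧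
    Tendsto (fun n : ℕ => (numIdem n : ℝ) / closedForm n) atTop (nhds 1) := by
  have key : ∃ C : ℝ, ∀ n : ℕ, 1 ≤ n → |(numIdem n : ℝ) / closedForm n - 1| ≤ C / n := by
    obtain ⟨C, hC⟩ := closed_rate
    refine ⟨C, fun n hn => ?_⟩
    have h := hC n hn
    unfold numIdem
    rw [IdemCount.card_matrix]
    exact h
  refine ⟨fun r hr => ?_, key, ?_, ?_⟩
  · filter_upwards [Pool.Agent.Y415.ID.rel_error r hr] with n hn
    unfold numIdem
    rw [IdemCount.card_matrix, mainSum_eq]
    exact hn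
  · refine IdemCount.tendsto_idn.congr fun n => ?_
    unfold numIdem
    rw [IdemCount.card_matrix, mainSum_eq]
  · obtain ⟨C, hC⟩ := key
    rw [tendsto_iff_norm_sub_tendsto_zero]
    refine squeeze_zero' (Eventually.of_forall fun n => norm_nonneg _) ?_
      (tendsto_const_div_atTop_nhds_zero_nat C)
    filter_upwards [eventually_ge_atTop 1] with n hn
    rw [Real.norm_eq_abs]
    exact hC n hn

end Pool.Agent.Results.MP_c00610_co.ErrorTerms
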